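import Pool.Agent.J4.H78.HP.Fam

set_option autoImplicit false

/-!
# The digits of `p ^ n` in base `q` at the places up to `(log n) ^ (3 / 2 - ε)`

Let `p, q ≥ 2` be coprime, for instance different primes.  We show that for almost all exponents `n` of an arbitrary
interval of `N` integers all words of all lengths `w` occur in all windows of the base `q` expansion of `p ^ n` between
the places `ε log N` and `(log N) ^ (1 + δ)`, for every `δ < 1 / 2`, as often as expected, namely `L / q ^ w` times in a
window of `L` places with an error of at most `(log N) ^ η (1 + √(L / q ^ w))`.  The same holds for `l p ^ n + f(n)`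
instead of `p ^ n`, if `l` and `q` are coprime and `f` is a polynomial of degree at most `d`, uniformly in `l` and `f`.

The starting result `AllWordsOfAllLengths` (part 2) treats the places up to `A log N`, for prime `q` and `f = 0`.

Proof.  On the progressions `n = n₂ + φ(q²) q ^ s t` the number `p ^ n` modulo `q ^ ν` is a polynomial in `t` of degree
`K`, about `ν / s`, and the coefficients of the shifted polynomials of the orders between `K / 7` and `K / 4`, divided by
`q ^ ν`, are fractions with suitable denominators (`Pool.Agent.N639.VP`, starting files; a polynomial `f` of degree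
less than `K / 7` does not change them).  Here `s` is about `log N` and `K` about `(log N) ^ δ`, and the bilinear sums
over the shifts `x y` are smaller by the factor `exp (-c s / K ^ 2)` than trivial, by Vinogradov's mean value theorem
(`Pool.Agent.J4.H78.HP.tt_exp`, by the proof of `Pool.Agent.N639.VP.tt_small`).  So the exponential sums over `p ^ n`
modulo `q ^ ν` are smaller by a factor `exp (- (log N) ^ β)` than trivial, `2 δ + β < 1`, for all `ν` between
`ε log N` and `(log N) ^ (1 + δ)` (`Pool.Agent.J4.H78.HP.exp_full`).  The law for all words follows by the method of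
`Pool.Agent.N639.FH` (starting files).
-/

open Finset Real Filter Topology

namespace Pool.Agent.Results.MP_b08cb4_nt.HigherPlaces

/-- the word of `w` digits of `Y` in base `q` whose highest digit stands at the place `i` (the place
of `q ^ i`), read as an integer between `0` and `q ^ w - 1` -/
def word (q w i Y : ℕ) : ℕ := Y / q ^ (i + 1 - w) % q ^ w

/-- every word `c` of every length `w` stands in every window `t ≤ i < t + L` (the places of the
highest digit of the word) at `L / q ^ w` places, up to `E (1 + √(L / q ^ w))`; all digits of the words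
stand at the places `lo, …, hi - 1` -/
def AllWords (q lo hi : ℕ) (E : ℝ) (Y : ℕ) : Prop :=
  ∀ w t L c : ℕ, lo + w ≤ t + 1 → t + L ≤ hi → c < q ^ w →
    |(((Ico t (t + L)).filter fun i => word q w i Y = c).card : ℝ) - L / (q : ℝ) ^ w| ≤
      E * (1 + √(L / (q : ℝ) ^ w))

open Classical in
/-- **All words of all lengths in the digits of `p ^ n` at the places up to `(log n) ^ (3 / 2 - ε)`.**  Let `p, q ≥ 2` be
coprime, `0 < δ < 1 / 2`, `ε, η > 0`, `d, R ∈ ℕ`.  For all large `N`, all `n₁`, all integers `l` coprime to `q` and all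
real polynomials `f` of degree at most `d` such that the numbers `Y n = l p ^ n + f(n)`, `n₁ ≤ n < n₁ + N`, are natural
numbers (for instance `l = 1`, `f = 0`): all but at most `N / (log N) ^ R` of the `n` with `n₁ ≤ n < n₁ + N` satisfy
`AllWords q lo hi ((log N) ^ η) (Y n)`, if `ε log N ≤ lo` and `hi ≤ (log N) ^ (1 + δ)`. -/
theorem result (p q d : ℕ) (hp : 2 ≤ p) (hq : 2 ≤ q) (hpq : p.Coprime q)
    (δ ε η : ℝ) (hδ : 0 < δ) (hδ1 : δ < 1 / 2) (hε : 0 < ε) (hη : 0 < η) (R : ℕ) :
    ∃ N₀ : ℕ, ∀ N : ℕ, N₀ ≤ N → ∀ (n₁ : ℕ) (l : ℤ) (f : Polynomial ℝ) (Y : ℕ → ℕ) (lo hi : ℕ),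
      IsCoprime l (q : ℤ) → f.natDegree ≤ d →
      (∀ n ∈ Ico n₁ (n₁ + N), (Y n : ℝ) = l * (p : ℝ) ^ n + f.eval (n : ℝ)) →
      ε * log N ≤ lo → (hi : ℝ) ≤ (log N) ^ (1 + δ) →
      (((Ico n₁ (n₁ + N)).filter fun n => ¬ AllWords q lo hi ((log N) ^ η) (Y n)).card : ℝ) ≤
        N / (log N) ^ R := by
  have hqR : (2 : ℝ) ≤ q := by exact_mod_cast hq
  have hT := Pool.Agent.J4.H78.HP.FI_TG (p := p) (q := q) d hp hq hpq δ ε hδ hδ1 hε
  have hη' : 0 < η / (1 + δ) := by positivity
  obtain ⟨N₁, hN₁⟩ := eventually_atTop.1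
    (Pool.Agent.N639.FH.low1 hq (L := fun M : ℕ => (log (M : ℝ)) ^ (1 + δ)) hT hη' R)
  have hlog : Tendsto (fun N : ℕ => Real.log (N : ℝ)) atTop atTop :=
    Real.tendsto_log_atTop.comp tendsto_natCast_atTop_atTop
  obtain ⟨N₂, hN₂⟩ := eventually_atTop.1 (hlog.eventually_ge_atTop 1)
  refine ⟨N₁ + N₂ + 1, fun N hN n₁ l f Y lo hi hl hf hY hlo hhi => ?_⟩
  have hlogN : 1 ≤ log (N : ℝ) := hN₂ N (by omega)
  have hN0 : (0 : ℝ) < N := by exact_mod_cast (by omega : 0 < N)
  have hE : (0 : ℝ) ≤ (log (N : ℝ)) ^ η := by positivity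
  -- if there are no places there is nothing to prove
  rcases le_or_gt hi lo with hhl | hhl
  · have h1 : (Ico n₁ (n₁ + N)).filter (fun n => ¬ AllWords q lo hi ((log (N : ℝ)) ^ η) (Y n)) = ∅ := by
      rw [filter_eq_empty_iff]
      intro n _
      rw [not_not]
      intro w t L c' h1 h2 h3
      rcases Nat.eq_zero_or_pos L with h4 | h4
      · subst h4
        simp only [add_zero, Ico_self, filter_empty, card_empty, CharP.cast_eq_zero, zero_div, sub_self, abs_zero]
        positivity
      · rcases Nat.eq_zero_or_pos w with h5 | h5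
        · subst h5
          have h6 : (Ico t (t + L)).filter (fun i => word q 0 i (Y n) = c') = Ico t (t + L) := by
            apply filter_true_of_mem
            intro i _
            unfold word
            rw [pow_zero, Nat.mod_one]
            rw [pow_zero] at h3
            omega
          rw [h6, Nat.card_Ico, Nat.add_sub_cancel_left, pow_zero, div_one, sub_self, abs_zero]
          positivity
        · exfalso
          omega
    rw [h1, card_empty, Nat.cast_zero]
    positivity
  have hmem : Pool.Agent.Y933.KE.smear (Ico n₁ (n₁ + N)) (fun m => Y m / q ^ lo) q (hi - lo) ∈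
      Pool.Agent.J4.H78.PM.SF q (Pool.Agent.J4.H78.HP.FI p q d δ ε) N := by
    refine ⟨(Ico n₁ (n₁ + N), Y, lo, hi - lo), ⟨n₁, l, f, by omega, rfl, hl, hf, fun n hn => hY n hn, hlo, ?_⟩, rfl⟩
    simp only
    rw [Nat.cast_sub hhl.le]
    linarith
  have key := hN₁ N (by omega) ℕ (Ico n₁ (n₁ + N)) Y lo hi hhi hmem
  have hpow : ((log (N : ℝ)) ^ (1 + δ)) ^ (η / (1 + δ)) = (log (N : ℝ)) ^ η := by
    rw [← Real.rpow_mul (by linarith)]
    congr 1
    field_simp
  rw [hpow] at key
  refine le_trans ?_ (key.trans ?_)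
  · have hsub : ((Ico n₁ (n₁ + N)).filter fun n => ¬ AllWords q lo hi ((log (N : ℝ)) ^ η) (Y n)) ⊆
        ((Ico n₁ (n₁ + N)).filter fun n => ¬ ∀ w t N' c : ℕ, lo + w ≤ t + 1 → t + N' ≤ hi → c < q ^ w →
        |(((Ico t (t + N')).filter fun i =>
          Pool.Agent.N639.FH.wo q w i (Y n) = c).card : ℝ) - N' / (q : ℝ) ^ w| ≤
        (log (N : ℝ)) ^ η * (1 + √(N' / (q : ℝ) ^ w))) := by
      intro n hn
      rw [mem_filter] at hn ⊢
      exact ⟨hn.1, fun hcon => hn.2 fun w t N' c k1 k2 k3 => hcon w t N' c k1 k2 k3⟩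
    exact_mod_cast card_le_card hsub
  · rw [Nat.card_Ico, Nat.add_sub_cancel_left, div_eq_inv_mul]
    have h1 : (log (N : ℝ)) ^ R ≤ ((log (N : ℝ)) ^ (1 + δ)) ^ R := by
      apply pow_le_pow_left₀ (by linarith)
      calc log (N : ℝ) = (log (N : ℝ)) ^ (1 : ℝ) := (Real.rpow_one _).symm
        _ ≤ (log (N : ℝ)) ^ (1 + δ) := Real.rpow_le_rpow_of_exponent_le hlogN (by linarith)
    gcongr

end Pool.Agent.Results.MP_b08cb4_nt.HigherPlaces
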