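import Pool.Agent.J4.H74.EX.Dyad
import Pool.Agent.N733.TG.K
import Pool.Agent.N733.TG.M
import Pool.Agent.N760.IT.D
import Pool.Agent.Results.MP_b08cb4_nt.LowestDigits
import Pool.Agent.Results.MP_b08cb4_nt.MissingDigits
import Pool.Agent.Results.MP_b08cb4_nt.TernaryExponent

/-!
# The digits of `l p ^ n` for all exponents `n` near the values of multiplicative functions and all small multipliers `l`

Let `q` be a prime and `p ≥ 2` an integer prime to `q`. The starting results say that the powers `p ^ n` whose lowest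
`C log n` digits in base `q` are irregular, or whose expansion contains few different digits, have exponents `n` in a
set with at most `N ^ s` elements `≤ N`, `s < 1`. Such sets could contain all the values of Euler's function, of the sum
of the divisors or of any other function whose values have density zero. We show that this is not so. Let `f` be a
multiplicative function with `f(r) ≤ M r` and different values at the large primes `r`, and of polynomial growth, like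
`φ`, `σ` and the identity; let `V` be any function with steps bounded below by a positive constant and with growth at
most `v ^ d`, for example `V(v) = v`. For almost all `m` the following holds for ALL exponents `n` with
`|n - V(f(m))| ≤ f(m) ^ κ` and ALL multipliers `l ≤ n ^ v` prime to `q`:

1. all blocks of `k` digits have the right frequency among the lowest `m'` digits of `l p ^ n`, for all
`m' ≤ C log n`, up to an error `ε log n`, if `d (1 - κ₀ + v) + κ < 1`, where `κ₀ > 0` depends on `q, p, k, C, ε`;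

2. `l p ^ n` has more than `r` different digits in base `q`, if `√q < r < q`, `q` is odd and `d (θ + v) + κ < 1` with
`θ = (1 + 2 a ^ 2) / 3`, `a = log r / log q`; for `r = q - 1` all the digits occur;

3. all three ternary digits occur in `l p ^ n`, if `q = 3` and `d (0.5754 + v) + κ < 1`.

The number of the exceptional `m ≤ M` is `O(M / (log M) ^ A)` for every `A`. The same holds, for almost all `m`, at the
values `V(f(φ_k(m)))` for all `k ≤ K(m)` at once, where `φ_k` is the `k`-th iterate of Euler's function and `K(m) → ∞`.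

For example (`p = 2`, `l = 1`): for almost all `m`, all the powers `2 ^ n` with `|n - φ(m)| ≤ φ(m) ^ 0.42` contain the
ternary digit `2` (Erdős conjectures this for all `n > 8`).

The proof: the counting theorems of the starting files are uniform in the multipliers, so that the union over the
small multipliers and over the dyadic scales of `n` is still small (`Pool.Agent.J4.H74.EX.Dyad`), and the theorems on
multiplicative functions and on the orbits of Euler's function of the starting libraries `N733/TG` and `N760/IT` apply.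
-/

set_option autoImplicit false

namespace Pool.Agent.Results.MP_b08cb4_nt.MultiplicativeExponents

open Filter Topology

/-- `f` is multiplicative, positive and of polynomial growth, and for the large primes `p` we have
`f(p) ≤ M p`, and different large primes have different values -/
structure LinearAtPrimes (f : ℕ → ℕ) : Prop where
  mul : ∀ m n : ℕ, Nat.Coprime m n → f (m * n) = f m * f n
  pos : ∀ m : ℕ, 1 ≤ m → 1 ≤ f m
  growth : ∃ C D : ℕ, ∀ m : ℕ, 1 ≤ m → f m ≤ C * m ^ D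
  prime : ∃ P M : ℕ, ∀ p : ℕ, P ≤ p → p.Prime →
    f p ≤ M * p ∧ ∀ q : ℕ, P ≤ q → q.Prime → f q = f p → q = p

/-- the steps of `V` are at least a positive constant, and `V(v) ≤ C v^d`, where `d ≥ 1` -/
structure Expanding (V : ℕ → ℝ) (d : ℝ) : Prop where
  one_le : 1 ≤ d
  step : ∃ a : ℝ, 0 < a ∧ ∀ v : ℕ, 1 ≤ v → a ≤ V (v + 1) - V v
  growth : ∃ C : ℝ, ∀ v : ℕ, 1 ≤ v → V v ≤ C * (v : ℝ) ^ d

open Classical in
/-- The proportion of the positive integers `m ≤ M` without the property `P` tends to `0`. -/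
def AlmostAll (P : ℕ → Prop) : Prop :=
  Tendsto (fun M : ℕ => (((Finset.Icc 1 M).filter (fun m => ¬ P m)).card : ℝ) / M) atTop (𝓝 0)

open Classical in
lemma AlmostAll.mono {P Q : ℕ → Prop} (h : AlmostAll P) (hPQ : ∀ m : ℕ, P m → Q m) : AlmostAll Q := by
  unfold AlmostAll at h ⊢
  refine squeeze_zero (fun M => by positivity) (fun M => ?_) h
  apply div_le_div_of_nonneg_right _ (Nat.cast_nonneg M)
  refine Nat.cast_le.2 (Finset.card_le_card ?_)
  intro m hm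
  rw [Finset.mem_filter, Finset.mem_Icc] at hm ⊢
  exact ⟨hm.1, fun h4 => hm.2 (hPQ m h4)⟩

/-- the blocks of `k` digits have the right frequency among the lowest `m` digits in base `q` of `l p ^ n`, for all
`m ≤ C log n` -/
def Regular (q p k : ℕ) (C ε : ℝ) (l n : ℕ) : Prop :=
  ∀ m : ℕ, (m : ℝ) ≤ C * Real.log n → ∀ a < q ^ k,
    |(((Finset.range m).filter (fun i => l * p ^ n / q ^ i % q ^ k = a)).card : ℝ) - m / (q : ℝ) ^ k| ≤
      ε * Real.log n

/-- `P l n` holds for all exponents `n ≥ 1` with `|n - x| ≤ w` and all multipliers `1 ≤ l ≤ n ^ v` prime to `q` -/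
def All (q : ℕ) (v : ℝ) (P : ℕ → ℕ → Prop) (x w : ℝ) : Prop :=
  ∀ n : ℕ, 1 ≤ n → |(n : ℝ) - x| ≤ w → ∀ l : ℕ, 1 ≤ l → (l : ℝ) ≤ (n : ℝ) ^ v → Nat.Coprime l q → P l n

/-- `P l n` holds for all `n` near `V(f(m))` and all small `l`, for almost all `m`; the same along the orbits of Euler's
function. -/
def NearValues (q : ℕ) (v : ℝ) (P : ℕ → ℕ → Prop) (s : ℝ) : Prop :=
  ∀ (V : ℕ → ℝ) (d κ : ℝ), Expanding V d → 0 ≤ κ → d * s + κ < 1 → ∀ f : ℕ → ℕ, LinearAtPrimes f →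
    (∀ A : ℕ, ∃ M₀ : ℕ, ∀ M : ℕ, M₀ ≤ M →
      ({m : ℕ | 1 ≤ m ∧ m ≤ M ∧ ¬ All q v P (V (f m)) ((f m : ℝ) ^ κ)}.ncard : ℝ) ≤ M / Real.log M ^ A) ∧
    ∃ K : ℕ → ℕ, Tendsto K atTop atTop ∧ AlmostAll (fun m => ∀ k ≤ K m,
      All q v P (V (f (Nat.totient^[k] m))) ((f (Nat.totient^[k] m) : ℝ) ^ κ))

theorem nearValues {q : ℕ} {v s : ℝ} (hs : 0 ≤ s) (P : ℕ → ℕ → Prop)
    (hP : ∀ ε : ℝ, 0 < ε → ∃ C : ℝ, ∀ X : ℕ, 1 ≤ X →
      ({n : ℕ | 1 ≤ n ∧ n ≤ X ∧ ∃ l : ℕ, 1 ≤ l ∧ (l : ℝ) ≤ (n : ℝ) ^ v ∧ Nat.Coprime l q ∧ ¬ P l n}.ncard : ℝ) ≤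
        C * (X : ℝ) ^ (s + ε)) : NearValues q v P s := by
  intro V d κ hV hκ h1 f hf
  have hf' : Pool.Agent.N733.TG.LM f := ⟨hf.mul, hf.pos, hf.growth, hf.prime⟩
  have hV' : Pool.Agent.N733.TG.Expanding V d := ⟨hV.one_le, hV.step, hV.growth⟩
  have hcount : ∀ ε : ℝ, 0 < ε → ∃ C : ℝ, ∀ X : ℕ, 1 ≤ X →
      ({t : ℕ | 1 ≤ t ∧ t ≤ X ∧ True ∧ ¬ (∀ l : ℕ, 1 ≤ l → (l : ℝ) ≤ (t : ℝ) ^ v → Nat.Coprime l q → P l t)}.ncard : ℝ) ≤
        C * (X : ℝ) ^ (s + ε) := by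
    intro ε hε
    obtain ⟨C, hC⟩ := hP ε hε
    refine ⟨C, fun X hX => le_trans (le_of_eq ?_) (hC X hX)⟩
    congr 2
    ext t
    simp only [Set.mem_ofPred_eq, true_and]
    constructor
    · rintro ⟨h1, h2, h3⟩
      push Not at h3
      exact ⟨h1, h2, h3⟩
    · rintro ⟨h1, h2, h3⟩
      refine ⟨h1, h2, ?_⟩
      push Not
      exact h3
  constructor
  · intro A
    obtain ⟨M₀, h⟩ := Pool.Agent.N733.TG.keep_good_nat (fun _ => True)
      (fun t => ∀ l : ℕ, 1 ≤ l → (l : ℝ) ≤ (t : ℝ) ^ v → Nat.Coprime l q → P l t) hf' hV' hs hκ h1 hcount A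
    refine ⟨M₀, fun M hM => le_trans ?_ (h M hM)⟩
    have hsub : {m : ℕ | 1 ≤ m ∧ m ≤ M ∧ ¬ All q v P (V (f m)) ((f m : ℝ) ^ κ)} ⊆
        {m : ℕ | 1 ≤ m ∧ m ≤ M ∧ ¬ ∀ n : ℕ, 1 ≤ n → True → |(n : ℝ) - V (f m)| ≤ (f m : ℝ) ^ κ →
          ∀ l : ℕ, 1 ≤ l → (l : ℝ) ≤ (n : ℝ) ^ v → Nat.Coprime l q → P l n} := by
      rintro m ⟨h1, h2, h3⟩
      exact ⟨h1, h2, fun h4 => h3 fun n hn hnx => h4 n hn trivial hnx⟩
    exact_mod_cast Set.ncard_le_ncard hsub ((Set.finite_Iic M).subset fun m hm => hm.2.1)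
  · obtain ⟨K, hK, h⟩ := Pool.Agent.N760.IT.orbit_good_nat (fun _ => True)
      (fun t => ∀ l : ℕ, 1 ≤ l → (l : ℝ) ≤ (t : ℝ) ^ v → Nat.Coprime l q → P l t) hf' hV' hs hκ h1 hcount
    refine ⟨K, hK, ?_⟩
    have h' : AlmostAll (fun m => ∀ k ≤ K m, ∀ n : ℕ, 1 ≤ n → True →
        |(n : ℝ) - V (f (Nat.totient^[k] m))| ≤ (f (Nat.totient^[k] m) : ℝ) ^ κ →
          ∀ l : ℕ, 1 ≤ l → (l : ℝ) ≤ (n : ℝ) ^ v → Nat.Coprime l q → P l n) := h
    exact h'.mono fun m h4 k hk n hn hnx => h4 k hk n hn trivial hnx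

/-- a count which is uniform in the multipliers -/
theorem near_of_count {q : ℕ} {v θ K : ℝ} (hv : 0 ≤ v) (hθ : 0 ≤ θ) (hK : 0 ≤ K) (P : ℕ → ℕ → Prop)
    (h : ∀ l : ℕ, 1 ≤ l → Nat.Coprime l q → ∀ N : ℕ, 1 ≤ N →
      ({n : ℕ | n < N ∧ ¬ P l n}.ncard : ℝ) ≤ K * (N : ℝ) ^ θ) : NearValues q v P (θ + v) := by
  refine nearValues (by linarith) P fun ε hε => ⟨K * 2 ^ (θ + v), fun X hX => ?_⟩
  have hX1 : (1 : ℝ) ≤ X := by exact_mod_cast hX
  have hX0 : (0 : ℝ) < X := by linarith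
  have h1 := Pool.Agent.J4.H74.EX.mult_union (s := θ) (v := v) hK (fun l n => ¬ P l n)
    (fun l => 1 ≤ l ∧ Nat.Coprime l q) (X + 1) (by omega) (fun l hl => h l hl.1 hl.2 (X + 1) (by omega))
  have hsub : {n : ℕ | 1 ≤ n ∧ n ≤ X ∧ ∃ l : ℕ, 1 ≤ l ∧ (l : ℝ) ≤ (n : ℝ) ^ v ∧ Nat.Coprime l q ∧ ¬ P l n} ⊆
      {n : ℕ | n < X + 1 ∧ ∃ l : ℕ, 1 ≤ l ∧ (l : ℝ) ≤ ((X + 1 : ℕ) : ℝ) ^ v ∧ (1 ≤ l ∧ Nat.Coprime l q) ∧ ¬ P l n} := by
    rintro n ⟨h1, h2, l, h3, h4, h5, h6⟩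
    refine ⟨by omega, l, h3, h4.trans ?_, ⟨h3, h5⟩, h6⟩
    apply Real.rpow_le_rpow (by positivity) _ hv
    have : n ≤ X + 1 := by omega
    exact_mod_cast this
  have hfin : {n : ℕ | n < X + 1 ∧ ∃ l : ℕ, 1 ≤ l ∧ (l : ℝ) ≤ ((X + 1 : ℕ) : ℝ) ^ v ∧ (1 ≤ l ∧ Nat.Coprime l q) ∧
      ¬ P l n}.Finite := (Set.finite_Iio (X + 1)).subset fun n hn => hn.1
  have h2 : (({n : ℕ | 1 ≤ n ∧ n ≤ X ∧ ∃ l : ℕ, 1 ≤ l ∧ (l : ℝ) ≤ (n : ℝ) ^ v ∧ Nat.Coprime l q ∧ ¬ P l n}.ncard : ℕ) : ℝ) ≤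
      ({n : ℕ | n < X + 1 ∧ ∃ l : ℕ, 1 ≤ l ∧ (l : ℝ) ≤ ((X + 1 : ℕ) : ℝ) ^ v ∧ (1 ≤ l ∧ Nat.Coprime l q) ∧
      ¬ P l n}.ncard : ℝ) := by exact_mod_cast Set.ncard_le_ncard hsub hfin
  refine h2.trans (h1.trans ?_)
  have h3 : ((X + 1 : ℕ) : ℝ) ^ (θ + v) ≤ 2 ^ (θ + v) * (X : ℝ) ^ (θ + v) := by
    rw [← Real.mul_rpow (by norm_num) hX0.le]
    apply Real.rpow_le_rpow (by positivity) _ (by linarith)
    push_cast
    linarith
  have h4 : (X : ℝ) ^ (θ + v) ≤ (X : ℝ) ^ (θ + v + ε) := Real.rpow_le_rpow_of_exponent_le hX1 (by linarith)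
  calc K * ((X + 1 : ℕ) : ℝ) ^ (θ + v) ≤ K * (2 ^ (θ + v) * (X : ℝ) ^ (θ + v)) := mul_le_mul_of_nonneg_left h3 hK
    _ ≤ K * (2 ^ (θ + v) * (X : ℝ) ^ (θ + v + ε)) :=
        mul_le_mul_of_nonneg_left (mul_le_mul_of_nonneg_left h4 (by positivity)) hK
    _ = _ := by ring

open Classical in
/-- few different digits -/
theorem few_digits {q p r : ℕ} {θ : ℝ} (hq : 2 ≤ q) (hrq : r ≤ q)
    (h : ∀ D : Finset ℕ, D ⊆ Finset.range q → D.card = r → ∃ C : ℝ, ∀ u : ℕ, 0 < u → Nat.Coprime u q → ∀ N : ℕ, 1 ≤ N →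
      (((Finset.range N).filter (fun n => (Nat.digits q (u * p ^ n)).toFinset ⊆ D)).card : ℝ) ≤ C * (N : ℝ) ^ θ) :
    ∃ K : ℝ, 0 ≤ K ∧ ∀ l : ℕ, 1 ≤ l → Nat.Coprime l q → ∀ N : ℕ, 1 ≤ N →
      ({n : ℕ | n < N ∧ ¬ r < (Nat.digits q (l * p ^ n)).toFinset.card}.ncard : ℝ) ≤ K * (N : ℝ) ^ θ := by
  obtain ⟨U, hU⟩ : ∃ U : Finset (Finset ℕ), U = (Finset.range q).powersetCard r := ⟨_, rfl⟩
  have hex : ∀ D : Finset ℕ, ∃ C : ℝ, D ∈ U → ∀ u : ℕ, 0 < u → Nat.Coprime u q → ∀ N : ℕ, 1 ≤ N →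
      (((Finset.range N).filter (fun n => (Nat.digits q (u * p ^ n)).toFinset ⊆ D)).card : ℝ) ≤ C * (N : ℝ) ^ θ := by
    intro D
    by_cases hD : D ∈ U
    · rw [hU, Finset.mem_powersetCard] at hD
      obtain ⟨C, hC⟩ := h D hD.1 hD.2
      exact ⟨C, fun _ => hC⟩
    · exact ⟨0, fun hc => absurd hc hD⟩
  choose C hC using hex
  refine ⟨∑ D ∈ U, |C D|, Finset.sum_nonneg fun D _ => abs_nonneg _, fun l hl hlq N hN => ?_⟩
  have hsub : {n : ℕ | n < N ∧ ¬ r < (Nat.digits q (l * p ^ n)).toFinset.card} ⊆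
      ((U.biUnion (fun D => (Finset.range N).filter (fun n => (Nat.digits q (l * p ^ n)).toFinset ⊆ D)) :
        Finset ℕ) : Set ℕ) := by
    rintro n ⟨h1, h2⟩
    rw [not_lt] at h2
    have h3 : (Nat.digits q (l * p ^ n)).toFinset ⊆ Finset.range q := by
      intro x hx
      rw [List.mem_toFinset] at hx
      exact Finset.mem_range.2 (Nat.digits_lt_base (by omega) hx)
    obtain ⟨D, hD1, hD2, hD3⟩ := Finset.exists_subsuperset_card_eq h3 h2 (by rw [Finset.card_range]; exact hrq)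
    rw [Finset.mem_coe, Finset.mem_biUnion]
    refine ⟨D, ?_, ?_⟩
    · rw [hU, Finset.mem_powersetCard]
      exact ⟨hD2, hD3⟩
    · rw [Finset.mem_filter, Finset.mem_range]
      exact ⟨h1, hD1⟩
  have h1 := Set.ncard_le_ncard hsub (Finset.finite_toSet _)
  rw [Set.ncard_coe_finset] at h1
  have h2 := h1.trans Finset.card_biUnion_le
  calc ({n : ℕ | n < N ∧ ¬ r < (Nat.digits q (l * p ^ n)).toFinset.card}.ncard : ℝ)
      ≤ ∑ D ∈ U, (((Finset.range N).filter (fun n => (Nat.digits q (l * p ^ n)).toFinset ⊆ D)).card : ℝ) := by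
        exact_mod_cast h2
    _ ≤ ∑ D ∈ U, |C D| * (N : ℝ) ^ θ := Finset.sum_le_sum fun D hD =>
        (hC D hD l (by omega) hlq N hN).trans (mul_le_mul_of_nonneg_right (le_abs_self _) (by positivity))
    _ = _ := by rw [Finset.sum_mul]

/-- regular lowest digits -/
theorem near_regular (q p k : ℕ) (hq : q.Prime) (hp2 : 2 ≤ p) (hp : ¬ q ∣ p) (hk : 1 ≤ k) (C ε : ℝ)
    (hC : 0 < C) (hε : 0 < ε) :
    ∃ κ₀ : ℝ, 0 < κ₀ ∧ ∀ v : ℝ, 0 ≤ v → NearValues q v (Regular q p k C ε) (1 - κ₀ + v) := by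
  classical
  obtain ⟨c, hc, M₀, h⟩ := LowestDigits.frequencies q p k hq hp2 hp hk C (ε / 2) hC (by positivity)
  have hc1 : 0 < min c 1 := lt_min hc one_pos
  refine ⟨min c 1, hc1, fun v hv => ?_⟩
  have hs0 : 0 ≤ 1 - min c 1 := by have := min_le_right c 1; linarith
  have hs : 0 ≤ 1 - min c 1 + v := by linarith
  refine nearValues hs _ ?_
  obtain ⟨S, hS⟩ : ∃ S : ℕ → ℕ → ℕ → Prop, S = fun (M l n : ℕ) => ¬ ∀ m : ℕ, (m : ℝ) ≤ C * Real.log M → ∀ a < q ^ k,
      |(((Finset.range m).filter (fun i => l * p ^ n / q ^ i % q ^ k = a)).card : ℝ) - m / (q : ℝ) ^ k| ≤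
        ε / 2 * Real.log M := ⟨_, rfl⟩
  refine Pool.Agent.J4.H74.EX.dyadic_pow hs
    (fun M n => ∃ l : ℕ, 1 ≤ l ∧ (l : ℝ) ≤ (M : ℝ) ^ v ∧ ¬ q ∣ l ∧ S M l n) _
    ⟨max M₀ 1, fun M hM => ?_⟩ ⟨2, fun n hn hbad => ?_⟩
  · have hM1 : 1 ≤ M := (le_max_right _ _).trans hM
    have hM1' : (1 : ℝ) ≤ M := by exact_mod_cast hM1
    have h1 := Pool.Agent.J4.H74.EX.mult_union (s := 1 - min c 1) (v := v) (K := 1) (by norm_num)
      (fun l n => S M l n) (fun l => ¬ q ∣ l) M hM1 (fun l hl => by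
        have h2 := h M ((le_max_left _ _).trans hM) l hl
        rw [one_mul]
        refine le_trans (le_of_eq ?_) (h2.trans (Real.rpow_le_rpow_of_exponent_le hM1' (by
          have := min_le_left c 1
          linarith)))
        rw [← Set.ncard_coe_finset]
        congr 2
        ext n
        simp only [Finset.coe_filter, Finset.mem_range, Set.mem_ofPred_eq, hS])
    rwa [one_mul] at h1
  · obtain ⟨l, h1, h2, h3, h4⟩ := hbad
    obtain ⟨M, hM⟩ : ∃ M : ℕ, M = 2 ^ (Nat.log 2 n + 1) := ⟨_, rfl⟩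
    rw [← hM]
    have hnM : n ≤ M := by
      rw [hM]
      exact (Nat.lt_pow_succ_log_self (by norm_num) n).le
    have hMn : M ≤ n ^ 2 := by
      have h5 : 2 ^ (Nat.log 2 n) ≤ n := Nat.pow_log_le_self 2 (by omega)
      rw [hM, pow_succ]
      nlinarith
    have hn0 : (0 : ℝ) < n := by
      have : (2 : ℝ) ≤ n := by exact_mod_cast hn
      linarith
    have hnM' : (n : ℝ) ≤ M := by exact_mod_cast hnM
    have hl1 : Real.log n ≤ Real.log M := Real.log_le_log hn0 hnM'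
    have hl2 : Real.log M ≤ 2 * Real.log n := by
      have h5 : (M : ℝ) ≤ (n : ℝ) ^ 2 := by exact_mod_cast hMn
      have h6 := Real.log_le_log (by linarith) h5
      rw [Real.log_pow] at h6
      exact_mod_cast h6
    refine ⟨l, h1, h2.trans (Real.rpow_le_rpow hn0.le hnM' hv), ?_, ?_⟩
    · intro hdvd
      exact hq.one_lt.ne' (Nat.dvd_one.1 ((h3 : Nat.gcd l q = 1) ▸ Nat.dvd_gcd hdvd dvd_rfl))
    · rw [hS]
      intro hall
      apply h4
      intro m hm a ha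
      have h5 := hall m (hm.trans (mul_le_mul_of_nonneg_left hl1 hC.le)) a ha
      refine h5.trans ?_
      nlinarith

/-- **The digits of `l p ^ n` for all exponents `n` near the values of multiplicative functions.** -/
theorem result :
    -- the frequencies of the blocks among the lowest `C log n` digits
    (∀ q p k : ℕ, q.Prime → 2 ≤ p → ¬ q ∣ p → 1 ≤ k → ∀ C ε : ℝ, 0 < C → 0 < ε →
      ∃ κ₀ : ℝ, 0 < κ₀ ∧ ∀ v : ℝ, 0 ≤ v → NearValues q v (Regular q p k C ε) (1 - κ₀ + v)) ∧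
    -- the number of the different digits
    (∀ q p r : ℕ, q.Prime → q ≠ 2 → 2 ≤ p → ¬ q ∣ p → q < r ^ 2 → r < q → ∀ v : ℝ, 0 ≤ v →
      NearValues q v (fun l n => r < (Nat.digits q (l * p ^ n)).toFinset.card)
        ((1 + 2 * (Real.log r / Real.log q) ^ 2) / 3 + v)) ∧
    -- ternary digits
    (∀ p : ℕ, 2 ≤ p → ¬ 3 ∣ p → ∀ v : ℝ, 0 ≤ v →
      NearValues 3 v (fun l n => ∀ b < 3, b ∈ Nat.digits 3 (l * p ^ n)) (0.5754 + v)) ∧
    LinearAtPrimes Nat.totient ∧ LinearAtPrimes (fun m => ∑ d ∈ m.divisors, d) ∧ LinearAtPrimes (fun m => m) ∧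
    ∀ α d : ℝ, 0 < α → 1 ≤ d → Expanding (fun v => α * (v : ℝ) ^ d) d := by
  refine ⟨near_regular, ?_, ?_, ?_, ?_, ?_, ?_⟩
  · intro q p r hq hq2 hp hpq hr hrq v hv
    obtain ⟨K, hK, h⟩ := few_digits (q := q) (p := p) (r := r)
      (θ := (1 + 2 * (Real.log r / Real.log q) ^ 2) / 3) hq.two_le hrq.le (fun D _ hDr => by
        obtain ⟨_, C, hC⟩ := MissingDigits.general q p hq hq2 hp hpq D (by rw [hDr]; exact hr) (by rw [hDr]; exact hrq)
          (Real.log r / Real.log q) (by rw [hDr])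
        exact ⟨C, fun u hu huq N hN => (hC u hu huq N hN).2⟩)
    exact near_of_count hv (by positivity) hK _ h
  · intro p hp hp3 v hv
    have hE0 : (0 : ℝ) ≤ 0.5754 := by norm_num
    obtain ⟨K, hK, h⟩ := few_digits (q := 3) (p := p) (r := 2) (θ := 0.5754) (by norm_num) (by norm_num)
      (fun D hD hDr => by
        obtain ⟨C, hC⟩ := TernaryExponent.general D hD hDr p hp hp3
        refine ⟨|C|, fun u hu huq N hN => ?_⟩
        have hN1 : (1 : ℝ) ≤ N := by exact_mod_cast hN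
        refine (hC u hu huq N hN).2.trans ?_
        calc C * (N : ℝ) ^ (Real.log 3 / Real.log (27 / 4)) ≤ |C| * (N : ℝ) ^ (Real.log 3 / Real.log (27 / 4)) :=
              mul_le_mul_of_nonneg_right (le_abs_self C) (by positivity)
          _ ≤ |C| * (N : ℝ) ^ (0.5754 : ℝ) := mul_le_mul_of_nonneg_left
              (Real.rpow_le_rpow_of_exponent_le hN1 TernaryExponent.exponent_le) (abs_nonneg C))
    refine near_of_count hv hE0 hK _ fun l hl hlq N hN => le_trans ?_ (h l hl hlq N hN)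
    have hsub : {n : ℕ | n < N ∧ ¬ ∀ b < 3, b ∈ Nat.digits 3 (l * p ^ n)} ⊆
        {n : ℕ | n < N ∧ ¬ 2 < (Nat.digits 3 (l * p ^ n)).toFinset.card} := by
      rintro n ⟨h1, h2⟩
      refine ⟨h1, fun h3 => h2 fun b hb => ?_⟩
      have h4 : (Nat.digits 3 (l * p ^ n)).toFinset ⊆ Finset.range 3 := by
        intro x hx
        rw [List.mem_toFinset] at hx
        exact Finset.mem_range.2 (Nat.digits_lt_base (by omega) hx)
      have h5 := Finset.eq_of_subset_of_card_le h4 (by rw [Finset.card_range]; omega)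
      rw [← List.mem_toFinset, h5]
      exact Finset.mem_range.2 hb
    have hfin : {n : ℕ | n < N ∧ ¬ 2 < (Nat.digits 3 (l * p ^ n)).toFinset.card}.Finite :=
      (Set.finite_Iio N).subset fun n hn => hn.1
    exact_mod_cast Set.ncard_le_ncard hsub hfin
  · have h := Pool.Agent.N733.TG.lm_totient
    exact ⟨h.mul, h.pos, h.growth, h.prime⟩
  · have h := Pool.Agent.N733.TG.lm_sigma
    exact ⟨h.mul, h.pos, h.growth, h.prime⟩
  · have h := Pool.Agent.N760.IT.lm_id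
    exact ⟨h.mul, h.pos, h.growth, h.prime⟩
  · intro α d hα hd
    have h := Pool.Agent.N733.TG.expanding_pow hα hd
    exact ⟨h.one_le, h.step, h.growth⟩

end Pool.Agent.Results.MP_b08cb4_nt.MultiplicativeExponents
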