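import Pool.Agent.J4.H78.PM.Fam

set_option autoImplicit false

/-!
# The digits in base `q` of `f(n) p ^ N` for integers `n` with restricted digits

Let `p, q ≥ 2` be coprime, for instance different primes, and let `b ≥ 2` be any base (for instance `b = q` or `b = p`).
Let `S` be the set of the integers with `k` digits in base `b` whose `i`-th digit lies in a given set `D i` of at least
two digits, for all `i`; so `S` may have only `2 ^ k` elements.  Let `F` be a polynomial of degree `d ≥ 2` with leading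
coefficient `c p ^ N`, `N ≤ A k`, for instance `F = f p ^ N + y`, where `f` is an integral polynomial of degree `d`, or
`F(n) = (n p ^ N + y) ^ d`.  We show that for almost all `n ∈ S` all words of all lengths `w` occur in all windows of
the base `q` expansion of `F(n)` as often as expected, namely `L / q ^ w` times in a window of `L` places with an error
of at most `k ^ η (1 + √(L / q ^ w))`; only the lowest `δ k` and the highest `δ k` places or so are excluded.  The
lower coefficients of `F` are arbitrary.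

Proof.  The exponential sums `∑ e(ℓ F(n) / q ^ J)`, `n ∈ S`, where `ℓ ≠ 0` is a combination of few powers of `q` with
small coefficients, are `O(|S| b ^ (- c k))` by the inequality of Weyl's type of helper93
(`Pool.Agent.J4.H93.PD.weyl_deg`), as `c p ^ N ℓ / q ^ J` has no good approximations by rational numbers with small
denominators, by the subspace theorem (`Pool.Agent.J4.H78.PM.powers_far2`, which extends helper933's
`Pool.Agent.Y933.KE.powers_far` to `q ^ J > p ^ N`).  The law for all words follows by the method of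
`Pool.Agent.N639.FH` (starting files).
-/

open Finset Real Filter Topology

namespace Pool.Agent.Results.MP_b08cb4_nt.PolynomialMultiples

/-- the word of `w` digits of `Y` in base `q` whose highest digit stands at the place `i` (the place
of `q ^ i`), read as an integer between `0` and `q ^ w - 1` -/
def word (q w i Y : ℕ) : ℕ := Y / q ^ (i + 1 - w) % q ^ w

/-- every word `c` of every length `w` stands in every window `t ≤ i < t + L` (the places of the
highest digit of the word) at `L / q ^ w` places, up to `E (1 + √(L / q ^ w))`; all digits of the words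
stand at the places `lo, …, hi - 1` -/
def AllWords (q lo hi : ℕ) (E : ℝ) (Y : ℕ) : Prop :=
  ∀ w t L c : ℕ, lo + w ≤ t + 1 → t + L ≤ hi → c < q ^ w →
    |(((Ico t (t + L)).filter fun i => word q w i Y = c).card : ℝ) - L / (q : ℝ) ^ w| ≤
      E * (1 + √(L / (q : ℝ) ^ w))

/-- the integers `n` with `0 ≤ n < b ^ k` whose digit number `i` in base `b` lies in `D i`, for all `i < k` -/
def S (b : ℕ) (D : ℕ → Finset ℕ) (k : ℕ) : Finset ℕ :=
  (range (b ^ k)).filter (fun n => ∀ i < k, n / b ^ i % b ∈ D i)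

open Classical in
/-- **All words of all lengths in the digits of `f(n) p ^ N`, `n` with restricted digits.**  Let `p, q ≥ 2` be coprime,
`b ≥ 2`, `d ≥ 2`, `0 < δ ≤ 1`, `η > 0`, `A`, `C` real, `R ∈ ℕ`.  For all large `k`, for all sets `D 0, …, D (k - 1)` of at
least two base `b` digits, all `N ≤ A k`, all integers `c ≠ 0` with `|c| ≤ k ^ C`, all real polynomials
`F = c p ^ N X ^ d + ⋯` whose values at the `n ∈ S b D k` are natural numbers `Y n`: all but at most
`|S b D k| / k ^ R` of the `n ∈ S b D k` satisfy `AllWords q lo hi (k ^ η) (Y n)`, if `δ k ≤ lo` and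
`q ^ hi ≤ p ^ N b ^ ((d - δ) k)`. -/
theorem result (p q b d : ℕ) (hp : 2 ≤ p) (hq : 2 ≤ q) (hpq : p.Coprime q) (hb : 2 ≤ b) (hd : 2 ≤ d)
    (A C δ η : ℝ) (hδ : 0 < δ) (hδ1 : δ ≤ 1) (hη : 0 < η) (R : ℕ) :
    ∃ k₀ : ℕ, ∀ k : ℕ, k₀ ≤ k → ∀ D : ℕ → Finset ℕ, (∀ i < k, D i ⊆ range b ∧ 2 ≤ (D i).card) →
      ∀ (N : ℕ) (c : ℤ) (F : Polynomial ℝ) (Y : ℕ → ℕ) (lo hi : ℕ),
      (N : ℝ) ≤ A * k → c ≠ 0 → |(c : ℝ)| ≤ (k : ℝ) ^ C →
      F.natDegree ≤ d → F.coeff d = c * (p : ℝ) ^ N → (∀ n ∈ S b D k, (Y n : ℝ) = F.eval (n : ℝ)) →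
      δ * k ≤ lo → (q : ℝ) ^ hi ≤ (p : ℝ) ^ N * ((b : ℝ) ^ k) ^ ((d : ℝ) - δ) →
      (((S b D k).filter fun n => ¬ AllWords q lo hi ((k : ℝ) ^ η) (Y n)).card : ℝ) ≤
        (S b D k).card / (k : ℝ) ^ R := by
  have hbR : (2 : ℝ) ≤ b := by exact_mod_cast hb
  have hqR : (2 : ℝ) ≤ q := by exact_mod_cast hq
  have hpR : (2 : ℝ) ≤ p := by exact_mod_cast hp
  have hdR : (2 : ℝ) ≤ d := by exact_mod_cast hd
  have hlb : 0 < log (b : ℝ) := Real.log_pos (by linarith)
  have hlq : 0 < log (q : ℝ) := Real.log_pos (by linarith)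
  have hlp : 0 < log (p : ℝ) := Real.log_pos (by linarith)
  -- the number of places is at most `A' log (b ^ k)`
  obtain ⟨A', hA'⟩ : ∃ A' : ℝ, A' = (|A| * log p + d * log b) / (log q * log b) := ⟨_, rfl⟩
  have hA'0 : 0 < A' := by rw [hA']; positivity
  have hT : Pool.Agent.N639.FG.TG q (fun M : ℕ => 2 * (A' * log (M : ℝ)))
      (Pool.Agent.J4.H78.PM.SF q (Pool.Agent.J4.H78.PM.FD p q b d A C δ)) := by
    have := Pool.Agent.J4.H78.PM.tg_gen hq (Pool.Agent.J4.H78.PM.FD p q b d A C δ)
      (Pool.Agent.J4.H78.PM.FD_ne p q b d hb A C δ)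
      (Pool.Agent.J4.H78.PM.FD_hat b d hp hq hpq hb hd A C δ hδ hδ1) (A := 2 * A') (by positivity)
    simpa only [mul_assoc] using this
  obtain ⟨M₀, hM₀⟩ := eventually_atTop.1
    (Pool.Agent.N639.FH.low1 hq hT (by positivity : 0 < η / 2) (R + 1))
  -- the errors
  have hAb : 0 < A' * log b := by positivity
  have e2 : ∀ᶠ t : ℕ in atTop, (A' * log b * t) ^ (η / 2) ≤ (t : ℝ) ^ η := by
    filter_upwards [tendsto_natCast_atTop_atTop.eventually_ge_atTop (A' * log b), eventually_gt_atTop 0] with t h1 h2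
    have h2' : (0 : ℝ) < t := by exact_mod_cast h2
    calc (A' * log b * t) ^ (η / 2) ≤ ((t : ℝ) * t) ^ (η / 2) := by gcongr
      _ = (t : ℝ) ^ η := by
          rw [Real.mul_rpow h2'.le h2'.le, ← Real.rpow_add h2']
          congr 1
          ring
  have e3 : ∀ᶠ t : ℕ in atTop, ((A' * log b * t) ^ (R + 1))⁻¹ ≤ ((t : ℝ) ^ R)⁻¹ := by
    filter_upwards [tendsto_natCast_atTop_atTop.eventually_ge_atTop (((A' * log b) ^ (R + 1))⁻¹), eventually_gt_atTop 0] with t h1 h2
    have h2' : (0 : ℝ) < t := by exact_mod_cast h2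
    apply inv_anti₀ (by positivity)
    have h3 : 1 ≤ (A' * log b) ^ (R + 1) * t := by
      rw [inv_le_iff_one_le_mul₀ (by positivity)] at h1
      linarith
    calc (t : ℝ) ^ R ≤ (t : ℝ) ^ R * ((A' * log b) ^ (R + 1) * t) := le_mul_of_one_le_right (by positivity) h3
      _ = (A' * log b * t) ^ (R + 1) := by ring
  obtain ⟨k₁, hk₁⟩ := eventually_atTop.1 (e2.and e3)
  refine ⟨M₀ + k₁ + 1, fun k hk D hD N c F Y lo hi hN hc0 hc hdeg hF hY hlo hhi => ?_⟩
  obtain ⟨g2, g3⟩ := hk₁ k (by omega)
  have hkR : (1 : ℝ) ≤ k := by exact_mod_cast (by omega : 1 ≤ k)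
  have hM : M₀ ≤ b ^ k := (by omega : M₀ ≤ k).trans (Nat.lt_pow_self (by omega : 1 < b)).le
  have hlog : log ((b ^ k : ℕ) : ℝ) = k * log b := by rw [Nat.cast_pow, Real.log_pow]
  have hZ0 : (0 : ℝ) < (b : ℝ) ^ k := by positivity
  -- if there are no places there is nothing to prove
  rcases le_or_gt hi lo with hhl | hhl
  · have h1 : (S b D k).filter (fun n => ¬ AllWords q lo hi ((k : ℝ) ^ η) (Y n)) = ∅ := by
      rw [filter_eq_empty_iff]
      intro n _
      rw [not_not]
      intro w t L c' h1 h2 h3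
      have hE : (0 : ℝ) ≤ (k : ℝ) ^ η := by positivity
      rcases Nat.eq_zero_or_pos L with h4 | h4
      · subst h4
        simp only [add_zero, Ico_self, filter_empty, card_empty, CharP.cast_eq_zero, zero_div, sub_self, abs_zero]
        positivity
      · rcases Nat.eq_zero_or_pos w with h5 | h5
        · subst h5
          have h6 : (Ico t (t + L)).filter (fun i => word q 0 i (Y n) = c') = Ico t (t + L) := by
            apply filter_true_of_mem
            intro i _
            unfold word
            rw [pow_zero, Nat.mod_one]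
            rw [pow_zero] at h3
            omega
          rw [h6, Nat.card_Ico, Nat.add_sub_cancel_left, pow_zero, div_one, sub_self, abs_zero]
          positivity
        · exfalso
          omega
    rw [h1, card_empty, Nat.cast_zero]
    positivity
  obtain ⟨J, hJ⟩ : ∃ J, J = hi - lo := ⟨_, rfl⟩
  have hmem : Pool.Agent.Y933.KE.smear (S b D k) (fun m => Y m / q ^ lo) q (hi - lo) ∈
      Pool.Agent.J4.H78.PM.SF q (Pool.Agent.J4.H78.PM.FD p q b d A C δ) (b ^ k) := by
    refine ⟨(S b D k, Y, lo, hi - lo), ⟨k, D, N, c, fun y => F.eval y, rfl, hD, rfl, hN, hc0, hc, ?_, ?_, hlo, ?_⟩, rfl⟩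
    · refine ⟨F.coeff, hF, fun y => ?_⟩
      exact Polynomial.eval_eq_sum_range' (by omega) y
    · exact fun n hn => hY n hn
    · simp only
      rw [Nat.add_sub_cancel' hhl.le]
      exact hhi
  have hplaces : (hi : ℝ) ≤ A' * log ((b ^ k : ℕ) : ℝ) := by
    rw [hlog, hA']
    have h1 := Real.log_le_log (by positivity) hhi
    rw [Real.log_mul (by positivity) (by positivity), Real.log_pow, Real.log_pow, Real.log_rpow hZ0, Real.log_pow] at h1
    have h2 : (N : ℝ) * log p ≤ |A| * k * log p := by
      apply mul_le_mul_of_nonneg_right _ hlp.le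
      exact hN.trans (mul_le_mul_of_nonneg_right (le_abs_self A) (by linarith))
    have h3 : ((d : ℝ) - δ) * (k * log b) ≤ d * (k * log b) :=
      mul_le_mul_of_nonneg_right (by linarith) (by positivity)
    have h4 : (|A| * log p + d * log b) / (log q * log b) * (k * log b) = (|A| * log p + d * log b) * k / log q := by
      field_simp
    rw [h4, le_div_iff₀ hlq]
    calc (hi : ℝ) * log q ≤ N * log p + ((d : ℝ) - δ) * (k * log b) := h1
      _ ≤ |A| * k * log p + d * (k * log b) := add_le_add h2 h3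
      _ = _ := by ring
  have key := hM₀ (b ^ k) hM ℕ (S b D k) Y lo hi hplaces hmem
  have hL : A' * log ((b ^ k : ℕ) : ℝ) = A' * log b * k := by rw [hlog]; ring
  rw [hL] at key
  refine le_trans ?_ (key.trans ?_)
  · have hsub : ((S b D k).filter fun n => ¬ AllWords q lo hi ((k : ℝ) ^ η) (Y n)) ⊆
        ((S b D k).filter fun n => ¬ ∀ w t N' c : ℕ, lo + w ≤ t + 1 → t + N' ≤ hi → c < q ^ w →
        |(((Ico t (t + N')).filter fun i =>
          Pool.Agent.N639.FH.wo q w i (Y n) = c).card : ℝ) - N' / (q : ℝ) ^ w| ≤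
        (A' * log b * k) ^ (η / 2) * (1 + √(N' / (q : ℝ) ^ w))) := by
      intro n hn
      rw [mem_filter] at hn ⊢
      refine ⟨hn.1, fun hcon => hn.2 fun w t N' c k1 k2 k3 => ?_⟩
      refine (hcon w t N' c k1 k2 k3).trans ?_
      gcongr
    exact_mod_cast card_le_card hsub
  · rw [div_eq_inv_mul]
    gcongr

end Pool.Agent.Results.MP_b08cb4_nt.PolynomialMultiples
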