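import Pool.Agent.J4.H78.EX.FamE

set_option autoImplicit false

/-!
# The digits in base `q` of the powers `p ^ n` for exponents `n` with restricted digits

Let `q` be a prime and `p ≥ 2` an integer not divisible by `q`.  Let `S` be the set of the integers `n` with `k` digits
in base `q` whose `i`-th digit lies in a given set `D i` of at least two digits, for all `i`; so `S` may be a very thin
set of exponents, for instance the set of the sums of distinct powers of `q` below `q ^ k`.  We show that for almost all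
`n ∈ S` all words of all lengths `w` occur in all windows of the base `q` expansion of `p ^ n` between the places
`δ k` and `A k` (`δ > 0` as small and `A` as large as we please) as often as expected, namely `L / q ^ w` times in a
window of `L` places with an error of at most `k ^ η (1 + √(L / q ^ w))`.  The same holds for `l p ^ n + f(n)` instead
of `p ^ n`, if `q` does not divide `l` and `f` is a polynomial of degree at most `d`, uniformly in `l` and `f`.

The starting results treat the exponents in intervals (`AllWordsOfAllLengths`, part 2).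

Proof.  For `n = u + q ^ h x` the number `p ^ n` modulo `q ^ ι` is given, on the residue classes of `x` modulo
`φ(q ^ 2)`, by a polynomial in `x` of bounded degree `K`, whose leading coefficient, divided by `q ^ ι`, is
`a / (K! φ(q ^ 2) ^ K q ^ r)` with `a` prime to `q` and `r` between small multiples of `k`
(`Pool.Agent.J4.H78.EX.phase_poly`).  So the inequality of Weyl's type of helper93 for integers with restricted digits
(`Pool.Agent.J4.H93.PD.weyl_deg`) gives a power saving in the exponential sums `∑ e(a p ^ n / q ^ ι)`, `n ∈ S`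
(`Pool.Agent.J4.H78.EX.expsum_S`).  The law for all words follows by the method of `Pool.Agent.N639.FH` (starting
files).
-/

open Finset Real Filter Topology

namespace Pool.Agent.Results.MP_b08cb4_nt.RestrictedExponents

/-- the word of `w` digits of `Y` in base `q` whose highest digit stands at the place `i` (the place
of `q ^ i`), read as an integer between `0` and `q ^ w - 1` -/
def word (q w i Y : ℕ) : ℕ := Y / q ^ (i + 1 - w) % q ^ w

/-- every word `c` of every length `w` stands in every window `t ≤ i < t + L` (the places of the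
highest digit of the word) at `L / q ^ w` places, up to `E (1 + √(L / q ^ w))`; all digits of the words
stand at the places `lo, …, hi - 1` -/
def AllWords (q lo hi : ℕ) (E : ℝ) (Y : ℕ) : Prop :=
  ∀ w t L c : ℕ, lo + w ≤ t + 1 → t + L ≤ hi → c < q ^ w →
    |(((Ico t (t + L)).filter fun i => word q w i Y = c).card : ℝ) - L / (q : ℝ) ^ w| ≤
      E * (1 + √(L / (q : ℝ) ^ w))

/-- the integers `n` with `0 ≤ n < q ^ k` whose digit number `i` in base `q` lies in `D i`, for all `i < k` -/
def S (q : ℕ) (D : ℕ → Finset ℕ) (k : ℕ) : Finset ℕ :=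
  (range (q ^ k)).filter (fun n => ∀ i < k, n / q ^ i % q ∈ D i)

open Classical in
/-- **All words of all lengths in the digits of `p ^ n`, `n` with restricted digits.**  Let `q` be a prime, `p ≥ 2` not
divisible by `q`, `δ, η > 0`, `A` real, `d, R ∈ ℕ`.  For all large `k`, for all sets `D 0, …, D (k - 1)` of at least two
base `q` digits, all integers `l` not divisible by `q` and all real polynomials `f` of degree at most `d` such that the
numbers `Y n = l p ^ n + f(n)`, `n ∈ S q D k`, are natural numbers (for instance `l = 1`, `f = 0`): all but at most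
`|S q D k| / k ^ R` of the `n ∈ S q D k` satisfy `AllWords q lo hi (k ^ η) (Y n)`, if `δ k ≤ lo` and `hi ≤ A k`. -/
theorem result (p q d : ℕ) (hp : 2 ≤ p) (hq : q.Prime) (hpq : ¬ q ∣ p)
    (A δ η : ℝ) (hδ : 0 < δ) (hη : 0 < η) (R : ℕ) :
    ∃ k₀ : ℕ, ∀ k : ℕ, k₀ ≤ k → ∀ D : ℕ → Finset ℕ, (∀ i < k, D i ⊆ range q ∧ 2 ≤ (D i).card) →
      ∀ (l : ℤ) (f : Polynomial ℝ) (Y : ℕ → ℕ) (lo hi : ℕ), ¬ (q : ℤ) ∣ l → f.natDegree ≤ d →
      (∀ n ∈ S q D k, (Y n : ℝ) = l * (p : ℝ) ^ n + f.eval (n : ℝ)) →
      δ * k ≤ lo → (hi : ℝ) ≤ A * k →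
      (((S q D k).filter fun n => ¬ AllWords q lo hi ((k : ℝ) ^ η) (Y n)).card : ℝ) ≤
        (S q D k).card / (k : ℝ) ^ R := by
  have hq2 := hq.two_le
  have hqR : (2 : ℝ) ≤ q := by exact_mod_cast hq2
  have hlq : 0 < log (q : ℝ) := Real.log_pos (by linarith)
  -- the number of places is at most `A' log (q ^ k)`
  obtain ⟨A', hA'⟩ : ∃ A' : ℝ, A' = (|A| + 1) / log q := ⟨_, rfl⟩
  have hA'0 : 0 < A' := by rw [hA']; positivity
  have hT : Pool.Agent.N639.FG.TG q (fun M : ℕ => 2 * (A' * log (M : ℝ)))
      (Pool.Agent.J4.H78.PM.SF q (Pool.Agent.J4.H78.EX.FE p q d A δ)) := by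
    have := Pool.Agent.J4.H78.PM.tg_gen hq2 (Pool.Agent.J4.H78.EX.FE p q d A δ)
      (Pool.Agent.J4.H78.EX.FE_ne p q d hq2 A δ)
      (Pool.Agent.J4.H78.EX.FE_hat d hp hq hpq A δ hδ) (A := 2 * A') (by positivity)
    simpa only [mul_assoc] using this
  obtain ⟨M₀, hM₀⟩ := eventually_atTop.1
    (Pool.Agent.N639.FH.low1 hq2 hT (by positivity : 0 < η / 2) (R + 1))
  -- the errors
  have hAb : 0 < A' * log q := by positivity
  have e2 : ∀ᶠ t : ℕ in atTop, (A' * log q * t) ^ (η / 2) ≤ (t : ℝ) ^ η := by
    filter_upwards [tendsto_natCast_atTop_atTop.eventually_ge_atTop (A' * log q), eventually_gt_atTop 0] with t h1 h2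
    have h2' : (0 : ℝ) < t := by exact_mod_cast h2
    calc (A' * log q * t) ^ (η / 2) ≤ ((t : ℝ) * t) ^ (η / 2) := by gcongr
      _ = (t : ℝ) ^ η := by
          rw [Real.mul_rpow h2'.le h2'.le, ← Real.rpow_add h2']
          congr 1
          ring
  have e3 : ∀ᶠ t : ℕ in atTop, ((A' * log q * t) ^ (R + 1))⁻¹ ≤ ((t : ℝ) ^ R)⁻¹ := by
    filter_upwards [tendsto_natCast_atTop_atTop.eventually_ge_atTop (((A' * log q) ^ (R + 1))⁻¹), eventually_gt_atTop 0] with t h1 h2
    have h2' : (0 : ℝ) < t := by exact_mod_cast h2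
    apply inv_anti₀ (by positivity)
    have h3 : 1 ≤ (A' * log q) ^ (R + 1) * t := by
      rw [inv_le_iff_one_le_mul₀ (by positivity)] at h1
      linarith
    calc (t : ℝ) ^ R ≤ (t : ℝ) ^ R * ((A' * log q) ^ (R + 1) * t) := le_mul_of_one_le_right (by positivity) h3
      _ = (A' * log q * t) ^ (R + 1) := by ring
  obtain ⟨k₁, hk₁⟩ := eventually_atTop.1 (e2.and e3)
  refine ⟨M₀ + k₁ + 1, fun k hk D hD l f Y lo hi hl hf hY hlo hhi => ?_⟩
  obtain ⟨g2, g3⟩ := hk₁ k (by omega)
  have hkR : (1 : ℝ) ≤ k := by exact_mod_cast (by omega : 1 ≤ k)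
  have hM : M₀ ≤ q ^ k := (by omega : M₀ ≤ k).trans (Nat.lt_pow_self (by omega : 1 < q)).le
  have hlog : log ((q ^ k : ℕ) : ℝ) = k * log q := by rw [Nat.cast_pow, Real.log_pow]
  -- if there are no places there is nothing to prove
  rcases le_or_gt hi lo with hhl | hhl
  · have h1 : (S q D k).filter (fun n => ¬ AllWords q lo hi ((k : ℝ) ^ η) (Y n)) = ∅ := by
      rw [filter_eq_empty_iff]
      intro n _
      rw [not_not]
      intro w t L c' h1 h2 h3
      have hE : (0 : ℝ) ≤ (k : ℝ) ^ η := by positivity
      rcases Nat.eq_zero_or_pos L with h4 | h4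
      · subst h4
        simp only [add_zero, Ico_self, filter_empty, card_empty, CharP.cast_eq_zero, zero_div, sub_self, abs_zero]
        positivity
      · rcases Nat.eq_zero_or_pos w with h5 | h5
        · subst h5
          have h6 : (Ico t (t + L)).filter (fun i => word q 0 i (Y n) = c') = Ico t (t + L) := by
            apply filter_true_of_mem
            intro i _
            unfold word
            rw [pow_zero, Nat.mod_one]
            rw [pow_zero] at h3
            omega
          rw [h6, Nat.card_Ico, Nat.add_sub_cancel_left, pow_zero, div_one, sub_self, abs_zero]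
          positivity
        · exfalso
          omega
    rw [h1, card_empty, Nat.cast_zero]
    positivity
  have hmem : Pool.Agent.Y933.KE.smear (S q D k) (fun m => Y m / q ^ lo) q (hi - lo) ∈
      Pool.Agent.J4.H78.PM.SF q (Pool.Agent.J4.H78.EX.FE p q d A δ) (q ^ k) := by
    refine ⟨(S q D k, Y, lo, hi - lo), ⟨k, D, l, f, rfl, hD, rfl, hl, hf, fun n hn => hY n hn, hlo, ?_⟩, rfl⟩
    simp only
    rw [Nat.cast_sub hhl.le]
    linarith
  have hplaces : (hi : ℝ) ≤ A' * log ((q ^ k : ℕ) : ℝ) := by
    rw [hlog, hA']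
    have h4 : (|A| + 1) / log q * (k * log q) = (|A| + 1) * k := by
      field_simp
    rw [h4]
    have h2 : A * k ≤ (|A| + 1) * k := mul_le_mul_of_nonneg_right (by linarith [le_abs_self A]) (by linarith)
    linarith
  have key := hM₀ (q ^ k) hM ℕ (S q D k) Y lo hi hplaces hmem
  have hL : A' * log ((q ^ k : ℕ) : ℝ) = A' * log q * k := by rw [hlog]; ring
  rw [hL] at key
  refine le_trans ?_ (key.trans ?_)
  · have hsub : ((S q D k).filter fun n => ¬ AllWords q lo hi ((k : ℝ) ^ η) (Y n)) ⊆
        ((S q D k).filter fun n => ¬ ∀ w t N' c : ℕ, lo + w ≤ t + 1 → t + N' ≤ hi → c < q ^ w →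
        |(((Ico t (t + N')).filter fun i =>
          Pool.Agent.N639.FH.wo q w i (Y n) = c).card : ℝ) - N' / (q : ℝ) ^ w| ≤
        (A' * log q * k) ^ (η / 2) * (1 + √(N' / (q : ℝ) ^ w))) := by
      intro n hn
      rw [mem_filter] at hn ⊢
      refine ⟨hn.1, fun hcon => hn.2 fun w t N' c k1 k2 k3 => ?_⟩
      refine (hcon w t N' c k1 k2 k3).trans ?_
      gcongr
    exact_mod_cast card_le_card hsub
  · rw [div_eq_inv_mul]
    gcongr

end Pool.Agent.Results.MP_b08cb4_nt.RestrictedExponents
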